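import Pool.Agent.helper7.UL.Spec

/-!
# Row ul:TRC (MP_62ffdf_lc): the recursion of the set `T`
-/

set_option autoImplicit false

namespace Pool.Agent.UL

open Finset

theorem TRC_neg (R o W j : ℕ) (i : ℤ) (hi : i < 0) : Sf R o W j i = false := by
  unfold Sf
  rw [decide_eq_false (by omega), Bool.false_and]

/-- membership of the integer `z` -/
def TRC_P (R o W : ℕ) (z : ℤ) : Prop :=
  ∃ j < o, ∃ i : ℤ, Sf R o W j i = true ∧ z = ((W : ℤ) - 1) * j + o * i

theorem TRC (h1 : CRD_stmt) (h2 : REC_stmt) : TRC_stmt := by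
  classical
  intro R o W hT hRW hoW hco
  have ho1 : 1 ≤ o := by have := hT.ho; omega
  have hW1 : 1 ≤ W := by omega
  obtain ⟨hex, hun⟩ := h1 o W ho1 hW1 hco
  obtain ⟨h00, hrec⟩ := h2 R o W hT hRW
  have hWc : ((W - 1 : ℕ) : ℤ) = (W : ℤ) - 1 := by rw [Nat.cast_sub hW1, Nat.cast_one]
  have hP : ∀ j < o, ∀ i z : ℤ, z = ((W : ℤ) - 1) * j + o * i → (TRC_P R o W z ↔ Sf R o W j i = true) := by
    intro j hj i z hz
    constructor
    · rintro ⟨j', hj', i', hS, hz'⟩
      obtain ⟨rfl, rfl⟩ := hun j hj j' hj' i i' (hz.symm.trans hz')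
      exact hS
    · intro hS
      exact ⟨j, hj, i, hS, hz⟩
  have hPnn : ∀ z, TRC_P R o W z → 0 ≤ z := by
    rintro z ⟨j, hj, i, hS, rfl⟩
    have hi : 0 ≤ i := by
      by_contra h
      rw [TRC_neg R o W j i (by omega)] at hS
      exact Bool.false_ne_true hS
    have h3 : (0 : ℤ) ≤ (W : ℤ) - 1 := by omega
    positivity
  refine ⟨⟨0, ho1, 0, h00, by simp⟩, ?_⟩
  intro m hm
  obtain ⟨j, hj, i, hmi⟩ := hex m
  have hmT : m ∈ Tset R o W ↔ Sf R o W j i = true := hP j hj i m hmi
  have hdel : ∀ δ : ℕ, (δ ≤ m ∧ m - δ ∈ Tset R o W) ↔ TRC_P R o W ((m : ℤ) - δ) := by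
    intro δ
    constructor
    · rintro ⟨hle, hm'⟩
      have hm'' : TRC_P R o W ((m - δ : ℕ) : ℤ) := hm'
      rw [Nat.cast_sub hle] at hm''
      exact hm''
    · intro h
      have h0 := hPnn _ h
      have hle : δ ≤ m := by omega
      refine ⟨hle, ?_⟩
      change TRC_P R o W ((m - δ : ℕ) : ℤ)
      rw [Nat.cast_sub hle]
      exact h
  have hk : ∀ k : ℕ, TRC_P R o W ((m : ℤ) - ((W - 1 + k * o : ℕ) : ℤ)) ↔ colp R o W j (i - k) = true := by
    intro k
    unfold colp
    by_cases hj0 : j = 0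
    · rw [if_pos hj0]
      subst hj0
      refine hP (o - 1) (by omega) _ _ ?_
      push_cast [hWc, Nat.cast_sub ho1]
      rw [hmi]
      push_cast
      ring
    · rw [if_neg hj0]
      refine hP (j - 1) (by omega) _ _ ?_
      have hj1 : 1 ≤ j := by omega
      push_cast [hWc, Nat.cast_sub hj1]
      rw [hmi]
      ring
  have h2W : TRC_P R o W ((m : ℤ) - ((2 * (W - 1 + 1) * o : ℕ) : ℤ)) ↔ Sf R o W j (i - 2 * W) = true := by
    refine hP j hj _ _ ?_
    push_cast [hWc]
    rw [hmi]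
    ring
  have hnot : 2 * (W - 1 + 1) * o ∉ (range (W - 1 + 1)).image fun k => W - 1 + k * o := by
    intro h
    obtain ⟨k, hk, hk'⟩ := mem_image.1 h
    have hk2 : k ≤ W - 1 := by have := mem_range.1 hk; omega
    have h3 : k * o ≤ (W - 1) * o := Nat.mul_le_mul_right o hk2
    have h4 : 2 * (W - 1 + 1) * o = (W - 1) * o + (W - 1) * o + 2 * o := by ring
    have h5 : W - 1 ≤ (W - 1) * o := Nat.le_mul_of_pos_right _ ho1
    omega
  have hinj : Set.InjOn (fun k => W - 1 + k * o) ((range (W - 1 + 1) : Finset ℕ) : Set ℕ) := by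
    intro a _ b _ hab
    have hab' : W - 1 + a * o = W - 1 + b * o := hab
    have h3 : a * o = b * o := by omega
    exact Nat.eq_of_mul_eq_mul_right ho1 h3
  have hcard : ((Del o (W - 1)).filter fun δ : ℕ => TRC_P R o W ((m : ℤ) - (δ : ℤ))).card =
      ((Ioc (i - W) i).filter fun i' => colp R o W j i' = true).card +
        (if Sf R o W j (i - 2 * W) = true then 1 else 0) := by
    unfold Del
    rw [filter_insert]
    have hA : (((range (W - 1 + 1)).image fun k => W - 1 + k * o).filter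
        fun δ : ℕ => TRC_P R o W ((m : ℤ) - (δ : ℤ))).card =
        ((Ioc (i - W) i).filter fun i' => colp R o W j i' = true).card := by
      rw [filter_image, card_image_of_injOn (hinj.mono (by
        intro a ha
        exact mem_coe.2 (filter_subset _ _ (mem_coe.1 ha))))]
      refine card_bij (fun k _ => i - (k : ℤ)) ?_ ?_ ?_
      · intro k hk'
        rw [mem_filter] at hk' ⊢
        have hk1 := mem_range.1 hk'.1
        refine ⟨mem_Ioc.2 ⟨by omega, by omega⟩, (hk k).1 hk'.2⟩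
      · intro a _ b _ hab
        have hab' : i - (a : ℤ) = i - (b : ℤ) := hab
        omega
      · intro i' hi'
        rw [mem_filter] at hi'
        have hi1 := mem_Ioc.1 hi'.1
        refine ⟨(i - i').toNat, ?_, by omega⟩
        rw [mem_filter]
        refine ⟨mem_range.2 (by omega), (hk _).2 ?_⟩
        have h6 : i - (((i - i').toNat : ℕ) : ℤ) = i' := by omega
        rw [h6]
        exact hi'.2
    by_cases hS : Sf R o W j (i - 2 * W) = true
    · rw [if_pos (h2W.2 hS), if_pos hS, card_insert_of_notMem, hA]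
      intro h
      exact hnot (mem_filter.1 h).1
    · rw [if_neg (fun h => hS (h2W.1 h)), if_neg hS, hA, add_zero]
  have hexu : (∃! δ, δ ∈ Del o (W - 1) ∧ δ ≤ m ∧ m - δ ∈ Tset R o W) ↔
      ((Del o (W - 1)).filter fun δ : ℕ => TRC_P R o W ((m : ℤ) - (δ : ℤ))).card = 1 := by
    rw [card_eq_one]
    constructor
    · rintro ⟨δ, ⟨hδ, hδ'⟩, hu⟩
      refine ⟨δ, ?_⟩
      ext x
      rw [mem_filter, mem_singleton]
      constructor
      · rintro ⟨hx, hx'⟩
        exact hu x ⟨hx, (hdel x).2 hx'⟩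
      · rintro rfl
        exact ⟨hδ, (hdel x).1 hδ'⟩
    · rintro ⟨δ, hδ⟩
      have hmem : ∀ x, (x ∈ Del o (W - 1) ∧ TRC_P R o W ((m : ℤ) - x)) ↔ x = δ := by
        intro x
        rw [← mem_singleton, ← hδ, mem_filter]
      refine ⟨δ, ⟨((hmem δ).2 rfl).1, (hdel δ).2 ((hmem δ).2 rfl).2⟩, ?_⟩
      rintro y ⟨hy, hy'⟩
      exact (hmem y).1 ⟨hy, (hdel y).1 hy'⟩
  rw [hmT, hexu, hcard]
  by_cases hi : 0 ≤ i
  · refine hrec j hj i hi ?_
    rintro ⟨rfl, rfl⟩
    simp at hmi
    omega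
  · have hi' : i < 0 := by omega
    have hj1 : j ≠ 0 := by
      rintro rfl
      have h3 : (o : ℤ) * i < 0 := mul_neg_of_pos_of_neg (by exact_mod_cast ho1) hi'
      rw [Nat.cast_zero, mul_zero, zero_add] at hmi
      omega
    rw [TRC_neg R o W j i hi', TRC_neg R o W j (i - 2 * W) (by omega)]
    have h0 : ((Ioc (i - W) i).filter fun i' => colp R o W j i' = true) = ∅ := by
      refine filter_eq_empty_iff.2 ?_
      intro i' hi1 h
      have := (mem_Ioc.1 hi1).2
      unfold colp at h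
      rw [if_neg hj1, TRC_neg R o W (j - 1) i' (by omega)] at h
      exact Bool.false_ne_true h
    rw [h0, card_empty]
    simp

end Pool.Agent.UL
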